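import Mathlib
import Pool.Agent.Q130.AD.Pub

/-!
# Descent of symplectic forms from amenable coverings, with small exceptional sets

`X` is a closed manifold with a continuous almost complex structure `J`, `pr : Z → X` is a normal
covering with amenable deck group `Γ` and `f : X → Y` is a smooth map to a Hausdorff manifold. Then
`J` is tamed by a symplectic form on `X` if and only if there is a smooth closed two-form `w` on
`Z` whose translates are bounded and which uniformly tames the lift of `J` outside a set lying over
a subset of `X` whose components in the fibres of `f` are small, the exceptional directions being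
tangent to the fibres of `f`.
-/

set_option autoImplicit false

open Set
open scoped Manifold ContDiff

namespace Pool.Agent.Results.MP_9986fc_gt.AmenableDescent

open Pool.Agent.Y501.SYP

theorem result (d k : ℕ) (Z X Y : Type) [TopologicalSpace Z] [ChartedSpace (ES d) Z]
    [IsManifold 𝓘(ℝ, ES d) ∞ Z] [TopologicalSpace X] [ChartedSpace (ES d) X]
    [IsManifold 𝓘(ℝ, ES d) ∞ X] [TopologicalSpace Y] [ChartedSpace (ES k) Y]
    [IsManifold 𝓘(ℝ, ES k) ∞ Y] [T2Space Y] (Γ : Type) [Group Γ] [MulAction Γ Z]
    [CompactSpace X] [T2Space X] (hΓ : Amenable Γ) (pr : Z → X)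
    (hpr : NormalCovering (ES d) Γ pr) (J : End (ES d) X) (hJ : IsAlmostComplex J)
    (f : X → Y) (hf : ContMDiff 𝓘(ℝ, ES d) 𝓘(ℝ, ES k) ∞ f) :
    (∃ σ : Form (ES d) X 2, IsTamingSymplectic σ J) ↔
    ∃ w : Form (ES d) Z 2, IsSmooth w ∧ IsClosedForm w ∧ BoundedTranslates Γ w ∧
      Pool.Agent.Q130.AD.SmallAlong k Γ pr J f w :=
  Pool.Agent.Q130.AD.descent_iff hΓ pr hpr J hJ f hf

end Pool.Agent.Results.MP_9986fc_gt.AmenableDescent
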