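import Mathlib
import Pool.Agent.Y501.SY.Bridge

/-!
# Symplectic forms from a map whose fibres are tamed up to small sets

`X` is a closed manifold with a continuous almost complex structure `J`, `f : X → Y` is a smooth
map, `σ` is a closed two-form which is weakly taming and whose null directions are contained in the
kernels of the differential of `f`, and `ζ` is a closed two-form which on every fibre of `f` can be
changed by an exact form such that it is nonnegative on the null directions of `σ` and positive on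
them away from a subset of the fibre with small components. Then `σ + t (ζ + dα)` is a symplectic
form taming `J`, for a one-form `α` and all small positive `t`.
-/

set_option autoImplicit false

open Set
open scoped Manifold ContDiff

namespace Pool.Agent.Results.MP_9986fc_gt.FibrewiseTaming

open Pool.Agent.Y501.SYP

theorem result (d m : ℕ) (X Y : Type) [TopologicalSpace X] [ChartedSpace (ES d) X]
    [IsManifold 𝓘(ℝ, ES d) ∞ X] [CompactSpace X] [T2Space X]
    [TopologicalSpace Y] [ChartedSpace (ES m) Y] [IsManifold 𝓘(ℝ, ES m) ∞ Y] [T2Space Y]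
    [SigmaCompactSpace Y]
    (J : End (ES d) X) (hJ : IsAlmostComplex J)
    (f : X → Y) (hf : ContMDiff 𝓘(ℝ, ES d) 𝓘(ℝ, ES m) ∞ f)
    (σ ζ : Form (ES d) X 2) (hσ : IsSmooth σ) (hσc : IsClosedForm σ)
    (hζ : IsSmooth ζ) (hζc : IsClosedForm ζ)
    (hpos : ∀ (x : X) (v : TangentSpace 𝓘(ℝ, ES d) x), 0 ≤ qd σ J x v)
    (hker : ∀ (x : X) (v : TangentSpace 𝓘(ℝ, ES d) x), qd σ J x v = 0 →
      mfderiv 𝓘(ℝ, ES d) 𝓘(ℝ, ES m) f x v = 0)
    (hfib : ∀ y : Y, GoodFibre σ ζ J (f ⁻¹' {y})) :
    ∃ (α : Form (ES d) X 1) (ρ : Form (ES d) X 2), IsSmooth α ∧ IsSmooth ρ ∧ IsD α ρ ∧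
      ∃ t₀ : ℝ, 0 < t₀ ∧ ∀ t : ℝ, 0 < t → t ≤ t₀ →
        IsTamingSymplectic (comb σ t (addF ζ ρ)) J :=
  twoLevel J hJ f hf σ ζ hσ hσc hζ hζc hpos hker hfib

end Pool.Agent.Results.MP_9986fc_gt.FibrewiseTaming
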