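import Pool.Agent.Q130.SF.Crit

/-!
# MP_9986fc_gt, Q1: a parametric criterion for symplectic forms in a cohomology class

Q1 asks whether a closed almost complex manifold `X` with a suitable class `a` carries a symplectic
form; for open manifolds, Gromov's parametric h-principle says that the symplectic forms in `a` are
homotopy equivalent to the nondegenerate forms.  The theorem describes families of symplectic forms
in a class `a` on closed manifolds by families of almost complex structures.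

An almost complex structure `J` is *weakly tamed* by `a` if `a` contains a closed form, possibly
with bounded singularities along a closed set of codimension more than one, which is nonnegative on
the `J`-complex lines and degenerates only over a set with small components.  Let `P` be a compact
Hausdorff space and `Q ⊆ P` a closed neighbourhood retract, for instance `(D^k, S^{k-1})`, or a
point and the empty set.  A continuous family of symplectic forms in the class `a` parametrized by
`Q` extends to `P` if and only if some continuous family of almost complex structures tamed by it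
extends to a family, parametrized by `P`, of almost complex structures weakly tamed by `a`.  The
weakly taming forms need not depend on the parameter continuously.

For `P` a point and `Q` empty: `a` contains a symplectic form if and only if it weakly tames some
almost complex structure.
-/

set_option autoImplicit false

open Set MeasureTheory
open scoped Manifold ContDiff

noncomputable section

namespace Pool.Agent.Results.MP_9986fc_gt.ParametricCriterion

open Pool.Agent.Y501.SYP

section defs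

variable {V : Type} [NormedAddCommGroup V] [NormedSpace ℝ V] {X : Type} [TopologicalSpace X]
  [ChartedSpace V X] {P : Type} [TopologicalSpace P]

/-- `σ = σ₀ + dα` for a smooth one-form `α` -/
def Cohomologous (σ σ₀ : Form V X 2) : Prop :=
  ∃ (α : Form V X 1) (ρ : Form V X 2), IsSmooth α ∧ IsSmooth ρ ∧ IsD α ρ ∧ σ = addF σ₀ ρ

/-- the family `Ω_p` of forms, `p ∈ S`, is continuous in the `C^∞` topology -/
def ContinuousFamily (S : Set P) (Ω : P → Form V X 2) : Prop :=
  ∀ (U : Set V) (φ : V → X), SmoothParam U φ → ∀ j : ℕ,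
    ContinuousOn (fun q : P × V => iteratedFDeriv ℝ j (pb φ (Ω q.1)) q.2) (S ×ˢ U)

/-- `Ω_p`, `p ∈ S`, is a continuous family of symplectic forms in the class of `σ₀` -/
def SymplecticFamily (σ₀ : Form V X 2) (S : Set P) (Ω : P → Form V X 2) : Prop :=
  ContinuousFamily S Ω ∧ ∀ p ∈ S, IsSmooth (Ω p) ∧ IsClosedForm (Ω p) ∧ NondegForm (Ω p) ∧
    Cohomologous (Ω p) σ₀

/-- `J_p`, `p ∈ P`, is a continuous family of almost complex structures -/
structure ContinuousACS (J : P → End V X) : Prop where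
  sq : ∀ (p : P) (x : X) (v : TangentSpace 𝓘(ℝ, V) x), J p x (J p x v) = -v
  cont : ∀ (x₀ : X) (v : V),
    ContinuousOn (fun q : P × V => inChart (J q.1) x₀ q.2 v) (univ ×ˢ (chartAt V x₀).target)

/-- `Q` is a retract of a neighbourhood -/
def NbhdRetract (Q : Set P) : Prop :=
  ∃ (N : Set P) (r : P → P), IsOpen N ∧ Q ⊆ N ∧ ContinuousOn r N ∧ (∀ p ∈ N, r p ∈ Q) ∧
    ∀ q ∈ Q, r q = q

end defs

/-- The class of `σ₀` contains a form `σ = σ₀ + dβ` with `σ(v, J v) ≥ 0`, where `σ` and `β` are
smooth off a closed set `K` of codimension more than one and bounded, and the components of the set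
of points near which `σ` does not tame `J` uniformly are small. -/
def WeaklyTamed (d : ℕ) {X : Type} [TopologicalSpace X] [ChartedSpace (ES d) X]
    (σ₀ : Form (ES d) X 2) (J : End (ES d) X) : Prop :=
  ∃ (K : Set X) (β : Form (ES d) X 1) (σ : Form (ES d) X 2), IsClosed K ∧
    (∀ x₀ : X, μH[(d : ℝ) - 1] (chartAt (ES d) x₀ '' (K ∩ (chartAt (ES d) x₀).source)) = 0) ∧
    SmoothOff β K ∧ SmoothOff σ K ∧ EqPlusD σ σ₀ β K ∧
    (∀ x ∈ K, BddNearK β K x ∧ BddNearK σ K x) ∧
    (∀ x, x ∉ K → ∀ v : TangentSpace 𝓘(ℝ, ES d) x, 0 ≤ qd σ J x v) ∧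
    ∀ z ∈ Crit σ J K, SmallAll J (connectedComponentIn (Crit σ J K) z) z

attribute [local instance] cs mf

theorem cfam_iff {d : ℕ} {X : Type} [TopologicalSpace X] [ChartedSpace (ES d) X] {P : Type}
    [TopologicalSpace P] (S : Set P) (Ω : P → Form (ES d) X 2) :
    ContinuousFamily S Ω ↔ Pool.Agent.Q130.SF.CFam (d := d) (X := X) S Ω :=
  ⟨fun h U φ hU hφ => h U φ ⟨hU, hφ⟩, fun h U φ hφ => h U φ hφ.1 hφ.2⟩

theorem weaklyTamed_of {d : ℕ} {X : Type} [TopologicalSpace X] [ChartedSpace (ES d) X]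
    [IsManifold 𝓘(ℝ, ES d) ∞ X] {σ₀ σ : Form (ES d) X 2} {J : End (ES d) X}
    (hJ : IsAlmostComplex J) (hσ : IsSmooth σ) (hc : Cohomologous σ σ₀)
    (ht : ∀ x, TamesAt σ J x) : WeaklyTamed d σ₀ J := by
  obtain ⟨α, ρ, h1, h2, h3, h4⟩ := hc
  have hcr : Crit σ J ∅ = ∅ := by
    ext x
    simp only [Crit, mem_setOf_eq, mem_empty_iff_false, iff_false, not_not]
    obtain ⟨c, hc, h5⟩ := Pool.Agent.Q130.SF.unif (d := d) (X := X) ((smooth_iff σ).1 hσ)
      (ac_of J hJ) (x := x) (ht x)
    refine ⟨c, hc, ?_⟩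
    filter_upwards [h5] with p hp _ v
    exact hp v
  refine ⟨∅, α, σ, isClosed_empty, fun x₀ => by simp, fun U φ hφ _ => h1 U φ hφ,
    fun U φ hφ _ => hσ U φ hφ, fun U φ hφ _ p hp => ?_, fun x hx => absurd hx (notMem_empty x),
    fun x _ v => ?_, fun z hz => ?_⟩
  · rw [h3 U φ hφ p hp, h4]
    rfl
  · rcases eq_or_ne v 0 with rfl | hv
    · have h5 : qd σ J x 0 = 0 := by
        have h6 := Pool.Agent.Q130.SF.alt2_smul (d := d) (σ x) 0 0 (J x 0)
        rw [zero_smul, zero_mul] at h6
        exact h6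
      exact h5.ge
    · exact (ht x v hv).le
  · rw [hcr] at hz
    exact absurd hz (notMem_empty z)

/-- A continuous family of symplectic forms in a class extends if and only if a family of almost
complex structures tamed by it extends to a family weakly tamed by the class. -/
theorem result (d : ℕ) (hd : 1 ≤ d) (X : Type) [TopologicalSpace X] [ChartedSpace (ES d) X]
    [IsManifold 𝓘(ℝ, ES d) ∞ X] [CompactSpace X] [T2Space X]
    (P : Type) [TopologicalSpace P] [CompactSpace P] [T2Space P]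
    (Q : Set P) (hQ : IsClosed Q) (hr : NbhdRetract Q)
    (σ₀ : Form (ES d) X 2) (hσ₀ : IsSmooth σ₀) (hσ₀c : IsClosedForm σ₀)
    (η : P → Form (ES d) X 2) (hη : SymplecticFamily σ₀ Q η) :
    (∃ Ω : P → Form (ES d) X 2, SymplecticFamily σ₀ univ Ω ∧ ∀ q ∈ Q, Ω q = η q) ↔
      ∃ J : P → End (ES d) X, ContinuousACS J ∧ (∀ q ∈ Q, ∀ x, TamesAt (η q) (J q) x) ∧
        ∀ p, p ∉ Q → WeaklyTamed d σ₀ (J p) := by
  classical
  have hac : ∀ J : P → End (ES d) X, ContinuousACS J → ∀ p, IsAlmostComplex (J p) := by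
    intro J hJ p
    refine ⟨hJ.sq p, fun x₀ v => ?_⟩
    have h1 := hJ.cont x₀ v
    have h2 : ContinuousOn (fun u : ES d => (p, u)) (chartAt (ES d) x₀).target := by fun_prop
    exact h1.comp h2 fun u hu => ⟨mem_univ _, hu⟩
  constructor
  · rintro ⟨Ω, ⟨hΩ, hs⟩, hq⟩
    obtain ⟨J, j1, j2, j3⟩ := Pool.Agent.Q130.SF.exists_J (d := d) (X := X) (P := P) (Ω := Ω)
      ((cfam_iff univ Ω).1 hΩ) (fun p x v hv => (hs p (mem_univ p)).2.2.1 x v hv)
    have hJ : ContinuousACS (V := ES d) (X := X) J := by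
      refine ⟨j1, fun x₀ v => ?_⟩
      have h1 := j2 x₀
      rw [continuousOn_clm_apply] at h1
      exact h1 v
    refine ⟨J, hJ, fun q hqQ x => ?_, fun p _ => ?_⟩
    · rw [← hq q hqQ]
      exact j3 q x
    · obtain ⟨h1, h2, h3, h4⟩ := hs p (mem_univ p)
      exact weaklyTamed_of (hac _ hJ p) h1 h4 (fun x => j3 p x)
  · rintro ⟨J, hJ, ht, hw⟩
    obtain ⟨N, r, hN, hQN, hrc, hrQ, hrid⟩ := hr
    have hJf : Pool.Agent.Q130.SF.JFam (d := d) (X := X) J := by
      intro x₀
      rw [continuousOn_clm_apply]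
      exact fun v => hJ.cont x₀ v
    have hex : ∀ p, ∃ w : Form (ES d) X 2, p ∉ Q → (IsSmooth w ∧ IsClosedForm w ∧
        Cohomologous w σ₀) ∧ ∀ x, TamesAt w (J p) x := by
      intro p
      by_cases hp : p ∈ Q
      · exact ⟨σ₀, fun h => absurd hp h⟩
      · obtain ⟨K, β, σ, h1, h2, h3, h4, h5, h6, h7, h8⟩ := hw p hp
        obtain ⟨α, ρ, g1, g2, g3, g4, -⟩ := removableInClass hd (J p) (hac J hJ p) K h1 h2 σ₀ hσ₀
          hσ₀c β σ h3 h4 h5 h6 h7 h8
        exact ⟨addF σ₀ ρ, fun _ => ⟨⟨g4.smooth, g4.closed, α, ρ, g1, g2, g3, rfl⟩, g4.tames⟩⟩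
    choose w hw' using hex
    obtain ⟨Ω, κ, k1, k2, -, k3, k4, k5⟩ := Pool.Agent.Q130.SF.extendS (d := d) (X := X) hQ hN hQN
      hrc hrQ hrid hJf (η := η) (w := w) ((cfam_iff Q η).1 hη.1) (fun q hq => (hη.2 q hq).1)
      ht (fun p hp => (hw' p hp).1.1) (fun p hp => (hw' p hp).2) (fun _ => 0)
    have hC := k5 {z | z.1 ∈ {σ : Form (ES d) X 2 | IsSmooth σ ∧ IsClosedForm σ ∧
        Pool.Agent.Q130.SF.Coh σ σ₀}}
      ((Pool.Agent.Q130.SF.convex_class σ₀).linear_preimage
        (LinearMap.fst ℝ (Form (ES d) X 2) ℝ))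
      (fun q hq => ⟨(hη.2 q hq).1, (hη.2 q hq).2.1, (hη.2 q hq).2.2.2⟩) (fun p hp => (hw' p hp).1)
    refine ⟨Ω, ⟨(cfam_iff univ Ω).2 k2, fun p _ => ?_⟩, fun q hq => (k1 q hq).1⟩
    obtain ⟨c1, c2, c3⟩ := hC p
    have h1 := symp_of c1 c2 (fun x => k4 p x)
    exact ⟨c1, c2, h1.nondeg, c3⟩

end Pool.Agent.Results.MP_9986fc_gt.ParametricCriterion
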