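import Mathlib
import Pool.Agent.Q186.SG.Final

/-!
# Unbounded singularities of closed two-forms taming an almost complex structure

`X` is a closed manifold of dimension `d ≥ 3` with a continuous almost complex structure `J`, and
`K` is a closed subset whose `(d-1)`-dimensional Hausdorff measure is zero. `σ` is a two-form
which is smooth, closed and weakly taming off `K`; near each point `x` of `K` it may be unbounded,
but it grows more slowly than the inverse square of the distance to `x`. If the components of the
set of points near which `σ` is not uniformly taming are small, then `J` is tamed by a symplectic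
form, which is equal to `σ + dα` with a smooth one-form `α` outside a given neighbourhood of `K`.
-/

set_option autoImplicit false

open Set MeasureTheory
open scoped Manifold ContDiff

namespace Pool.Agent.Results.MP_9986fc_gt.UnboundedSingularities

open Pool.Agent.Y501.SYP Pool.Agent.Q186.SGP

theorem result (d : ℕ) (hd : 3 ≤ d) (X : Type) [TopologicalSpace X] [ChartedSpace (ES d) X]
    [IsManifold 𝓘(ℝ, ES d) ∞ X] [CompactSpace X] [T2Space X]
    (J : End (ES d) X) (hJ : IsAlmostComplex J) (K : Set X) (hK : IsClosed K)
    (hH : ∀ x₀ : X, μH[(d : ℝ) - 1] (chartAt (ES d) x₀ '' (K ∩ (chartAt (ES d) x₀).source)) = 0)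
    (σ : Form (ES d) X 2) (hσ : ClosedOff σ K) (hb : ∀ x ∈ K, SlowNear σ K x)
    (hpos : ∀ x, x ∉ K → ∀ v : TangentSpace 𝓘(ℝ, ES d) x, 0 ≤ qd σ J x v)
    (hsmall : ∀ z ∈ Crit σ J K, SmallAll J (connectedComponentIn (Crit σ J K) z) z)
    (U : Set X) (hU : IsOpen U) (hKU : K ⊆ U) :
    ∃ (α : Form (ES d) X 1) (η w : Form (ES d) X 2), IsSmooth α ∧ IsSmooth η ∧ IsD α η ∧
      IsTamingSymplectic w J ∧ ∀ x, x ∉ U → w x = addF σ η x :=
  unboundedSing hd J hJ K hK hH σ hσ hb hpos hsmall U hU hKU

end Pool.Agent.Results.MP_9986fc_gt.UnboundedSingularities
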